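import Pool.Agent.H30.FCB.StB

/-! Module CANU of project FCB: two canonical divisors are linearly equivalent. -/

open AlgebraicGeometry CategoryTheory

namespace FCB

namespace CANU

/-- differentials forming a basis do so after localisation -/
lemma loc_basis {k A B : Type} [CommRing k] [CommRing A] [CommRing B] [Algebra k A] [Algebra k B]
    [Algebra A B] [IsScalarTower k A B] (S : Submonoid A) [IsLocalization S B] {n : ℕ}
    (t : Fin n → A)
    (h : ∃ c : Module.Basis (Fin n) A (Ω[A⁄k]), ∀ i, c i = KaehlerDifferential.D k A (t i)) :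
    ∃ c : Module.Basis (Fin n) B (Ω[B⁄k]),
      ∀ i, c i = KaehlerDifferential.D k B (algebraMap A B (t i)) := by
  obtain ⟨c, hc⟩ := h
  refine ⟨c.ofIsLocalizedModule B S (KaehlerDifferential.map k k A B), fun i => ?_⟩
  rw [Module.Basis.ofIsLocalizedModule_apply, hc, KaehlerDifferential.map_D]

/-- the base change matrix of two systems of coordinates is invertible -/
lemma det_unit {k B K : Type} [CommRing k] [CommRing B] [CommRing K] [Algebra k B] [Algebra k K]
    [Algebra B K] [IsScalarTower k B K] {n : ℕ} (u u' : Fin n → B)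
    (β β' : Module.Basis (Fin n) B (Ω[B⁄k]))
    (hβ : ∀ i, β i = KaehlerDifferential.D k B (u i))
    (hβ' : ∀ i, β' i = KaehlerDifferential.D k B (u' i))
    (c c' : Module.Basis (Fin n) K (Ω[K⁄k]))
    (hc : ∀ i, c i = KaehlerDifferential.D k K (algebraMap B K (u i)))
    (hc' : ∀ i, c' i = KaehlerDifferential.D k K (algebraMap B K (u' i))) :
    ∃ w : B, IsUnit w ∧ c'.det c = algebraMap B K w := by
  refine ⟨β'.det β, β'.isUnit_det β, ?_⟩
  rw [Module.Basis.det_apply, Module.Basis.det_apply]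
  have h : c'.toMatrix c = (algebraMap B K).mapMatrix (β'.toMatrix β) := by
    ext i j
    rw [RingHom.mapMatrix_apply, Matrix.map_apply, Module.Basis.toMatrix_apply,
      Module.Basis.toMatrix_apply]
    have h1 : c j = ∑ l, algebraMap B K (β'.repr (β j) l) • c' l := by
      have h2 := congrArg (KaehlerDifferential.map k k B K) (β'.sum_repr (β j))
      rw [map_sum, hβ j, KaehlerDifferential.map_D, ← hc j] at h2
      rw [← h2]
      refine Finset.sum_congr rfl fun l _ => ?_
      rw [map_smul, hβ' l, KaehlerDifferential.map_D, ← hc' l, hβ j, algebraMap_smul]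
    rw [h1]
    exact congrFun (c'.repr_sum_self _) i
  rw [h, RingHom.map_det]

/-- coordinates near `x` give a basis of the differentials of the stalk -/
lemma stalk_basis {X : Scheme.{0}} (s : X ⟶ Spec (.of ℂ)) (U : X.Opens) (hU : IsAffineOpen U)
    (x : X) (hx : x ∈ U) {n : ℕ} (t : Fin n → Γ(X, U)) (h : IsCoord s U t)
    [Algebra ℂ (X.presheaf.stalk x)]
    (halg : ∀ z, algebraMap ℂ (X.presheaf.stalk x) z =
      (X.presheaf.germ U x hx).hom (secHom s U z)) :
    ∃ c : Module.Basis (Fin n) (X.presheaf.stalk x) (Ω[X.presheaf.stalk x⁄ℂ]),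
      ∀ i, c i = KaehlerDifferential.D ℂ (X.presheaf.stalk x)
        ((X.presheaf.germ U x hx).hom (t i)) := by
  let : Algebra ℂ Γ(X, U) := (secHom s U).toAlgebra
  let : Algebra Γ(X, U) (X.presheaf.stalk x) := (X.presheaf.germ U x hx).hom.toAlgebra
  have : IsScalarTower ℂ Γ(X, U) (X.presheaf.stalk x) :=
    IsScalarTower.of_algebraMap_eq halg
  have := hU.isLocalization_stalk ⟨x, hx⟩
  exact loc_basis (A := Γ(X, U)) (B := X.presheaf.stalk x)
    (hU.primeIdealOf ⟨x, hx⟩).asIdeal.primeCompl t h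

lemma res_secHom {X : Scheme.{0}} (s : X ⟶ Spec (.of ℂ)) (U V : X.Opens) (h : U ≤ V) (z : ℂ) :
    (X.presheaf.map (homOfLE h).op).hom (secHom s V z) = secHom s U z := by
  simp only [secHom, RingHom.comp_apply]
  rw [← RingHom.comp_apply, ← CommRingCat.hom_comp, ← Functor.map_comp]
  rfl

lemma germ_secHom {X : Scheme.{0}} (s : X ⟶ Spec (.of ℂ)) (U : X.Opens) (x : X) (hx : x ∈ U)
    (z : ℂ) : (X.presheaf.germ U x hx).hom (secHom s U z) =
      (X.presheaf.germ ⊤ x trivial).hom (secHom s ⊤ z) := by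
  rw [← res_secHom s U ⊤ le_top]
  exact X.presheaf.germ_res_apply (homOfLE le_top) _ _ _

lemma ord_unit {X : Scheme.{0}} [IsIntegral X] [IsLocallyNoetherian X] (p : PrimeDiv X)
    (w : X.presheaf.stalk p.1) (hw : IsUnit w) :
    Scheme.ord (algebraMap _ X.functionField w) p.1 = 0 := by
  have h0 : algebraMap (X.presheaf.stalk p.1) X.functionField w ≠ 0 :=
    (hw.map (algebraMap (X.presheaf.stalk p.1) X.functionField)).ne_zero
  rw [Scheme.ord_eq_iff p.2 h0]
  have : Ring.KrullDimLE 1 (X.presheaf.stalk p.1) := krullDimLE_of_coheight_le p.2.le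
  exact Ring.ordFrac_of_isUnit hw

end CANU

theorem canu : S_CANU := by
  intro X _ _ s K K' hK hK'
  let : Algebra ℂ X.functionField := (ffHom s).toAlgebra
  obtain ⟨n, b, hb⟩ := hK
  obtain ⟨n', b', hb'⟩ := hK'
  obtain rfl : n = n' := by
    have := b.indexEquiv b'
    simpa using Fintype.card_congr this
  refine ⟨b.det b', (b.isUnit_det b').ne_zero, fun p => ?_⟩
  obtain ⟨U, _, t, c, hU, hp, ht, hc, hD⟩ := hb p
  obtain ⟨U', _, t', c', hU', hp', ht', hc', hD'⟩ := hb' p
  let : Algebra ℂ (X.presheaf.stalk p.1) :=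
    ((X.presheaf.germ ⊤ p.1 trivial).hom.comp (secHom s ⊤)).toAlgebra
  have : IsScalarTower ℂ (X.presheaf.stalk p.1) X.functionField := by
    refine IsScalarTower.of_algebraMap_eq fun z => ?_
    have : Nonempty (⊤ : X.Opens) := ⟨⟨genericPoint X, trivial⟩⟩
    exact (Scheme.algebraMap_germ_eq_germToFunctionField (X := X) (U := ⊤) (x := p.1) trivial
      (secHom s ⊤ z)).symm
  obtain ⟨β, hβ⟩ := CANU.stalk_basis s U hU p.1 hp t ht
    (fun z => (CANU.germ_secHom s U p.1 hp z).symm)
  obtain ⟨β', hβ'⟩ := CANU.stalk_basis s U' hU' p.1 hp' t' ht'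
    (fun z => (CANU.germ_secHom s U' p.1 hp' z).symm)
  obtain ⟨w, hw, hw'⟩ := CANU.det_unit (K := X.functionField) _ _ β β' hβ hβ' c c'
    (fun i => by
      rw [hc i]
      congr 1
      exact (Scheme.algebraMap_germ_eq_germToFunctionField (X := X) hp (t i)).symm)
    (fun i => by
      rw [hc' i]
      congr 1
      exact (Scheme.algebraMap_germ_eq_germToFunctionField (X := X) hp' (t' i)).symm)
  have hmul : c'.det b' = c'.det c * (c.det b * b.det b') := by
    simp only [Module.Basis.det_apply]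
    rw [← Matrix.det_mul, ← Matrix.det_mul, Module.Basis.toMatrix_mul_toMatrix,
      Module.Basis.toMatrix_mul_toMatrix]
  rw [hD', hD, hmul, Scheme.ord_mul (c'.isUnit_det c).ne_zero
    (mul_ne_zero (c.isUnit_det b).ne_zero (b.isUnit_det b').ne_zero),
    Scheme.ord_mul (c.isUnit_det b).ne_zero (b.isUnit_det b').ne_zero, hw',
    CANU.ord_unit p w hw, zero_add]

end FCB
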