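import Pool.Agent.H30.FCB.StB
import Pool.Agent.H30.FCB.Basic

/-! Module CONE of project FCB: classes of ample divisors are nonnegative at the origin of a
unimodular chart. -/

open AlgebraicGeometry CategoryTheory

namespace FCB

namespace CONE

variable {R ι C : Type} {r : ℕ} [CommRing R] [Algebra ℂ R] [Fintype ι]

lemma eps_mono {D : Cox R ι C r} {c : C} {ε : R →ₐ[ℂ] ℂ} (h : ∀ j ∈ D.u c, ε (D.X j) = 1)
    (n : ι → ℕ) (hn : ∀ j, n j ≠ 0 → j ∈ D.u c) : ε (D.mono n) = 1 := by
  rw [Cox.mono, map_prod]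
  refine Finset.prod_eq_one fun j _ => ?_
  by_cases hj : n j = 0
  · simp [hj]
  · rw [map_pow, h j (hn j hj), one_pow]

variable [IsDomain R] (D : Cox R ι C r) (c : C) (ε : R →ₐ[ℂ] ℂ)

noncomputable def evv (f : D.chart c) : ℂ := ε f.2.choose_spec.choose

omit [IsDomain R] in
lemma evv_eq (h : ∀ j ∈ D.u c, ε (D.X j) = 1) (f : D.chart c) (n : ι → ℕ) (a : R)
    (hn : ∀ j, n j ≠ 0 → j ∈ D.u c)
    (hf : (f : FractionRing R) * algebraMap R (FractionRing R) (D.mono n) =
      algebraMap R (FractionRing R) a) : evv D c ε f = ε a := by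
  obtain ⟨hm, -, hb⟩ := f.2.choose_spec.choose_spec
  rw [evv]
  set m := f.2.choose
  set b := f.2.choose_spec.choose
  have h1 : b * D.mono n = a * D.mono m := by
    apply FaithfulSMul.algebraMap_injective R (FractionRing R)
    rw [map_mul, map_mul, ← hb, ← hf]
    ring
  have h2 := congrArg ε h1
  rwa [map_mul, map_mul, eps_mono h n hn, eps_mono h m hm, mul_one, mul_one] at h2

noncomputable def ev (h : ∀ j ∈ D.u c, ε (D.X j) = 1) : D.chart c →+* ℂ where
  toFun := evv D c ε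
  map_one' := by
    rw [evv_eq D c ε h 1 0 1 (by simp) (by simp [D.mono_zero]), map_one]
  map_zero' := by
    rw [evv_eq D c ε h 0 0 0 (by simp) (by simp), map_zero]
  map_mul' := by
    intro f g
    obtain ⟨m, a, hm, ha, h1⟩ := f.2
    obtain ⟨n, b, hn, hb, h2⟩ := g.2
    rw [evv_eq D c ε h f m a hm h1, evv_eq D c ε h g n b hn h2, ← map_mul]
    refine evv_eq D c ε h (f * g) (m + n) _ ?_ ?_
    · intro j hj
      by_cases h : m j = 0
      · exact hn j (by simpa [h] using hj)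
      · exact hm j h
    · rw [D.mono_add, map_mul, map_mul, ← h1, ← h2, MulMemClass.coe_mul]
      ring
  map_add' := by
    intro f g
    obtain ⟨m, a, hm, ha, h1⟩ := f.2
    obtain ⟨n, b, hn, hb, h2⟩ := g.2
    rw [evv_eq D c ε h f m a hm h1, evv_eq D c ε h g n b hn h2]
    have h3 : ε a + ε b = ε (a * D.mono n + b * D.mono m) := by
      rw [map_add, map_mul, map_mul, eps_mono h n hn, eps_mono h m hm, mul_one, mul_one]
    rw [h3]
    refine evv_eq D c ε h (f + g) (m + n) _ ?_ ?_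
    · intro j hj
      by_cases h : m j = 0
      · exact hn j (by simpa [h] using hj)
      · exact hm j h
    · rw [D.mono_add, map_add, map_mul, map_mul, map_mul, ← h1, ← h2, AddMemClass.coe_add]
      ring

lemma ev_pi {D : Cox R ι C r} (hD : D.Laws) {c : C} {ε : R →ₐ[ℂ] ℂ}
    (h : ∀ j ∈ D.u c, ε (D.X j) = 1) (g : Fin r → ℤ) (π : R) (hπ : ε π = 0) (q : D.chart c)
    (hq : (q : FractionRing R) = algebraMap R (FractionRing R) π * D.monoZ (-(D.σ c g))) :
    ev D c ε h q = 0 := by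
  change evv D c ε q = 0
  rw [evv_eq D c ε h q (fun j => (D.σ c g j).toNat)
    (π * D.mono (fun j => (-(D.σ c g j)).toNat)), map_mul, hπ, zero_mul]
  · intro j hj
    refine hD.σ_supp c g j ?_
    intro h0
    simp [h0] at hj
  · rw [hq, map_mul, ← Cox.monoZ_cast, ← Cox.monoZ_cast, mul_assoc, ← hD.monoZ_add]
    congr 2
    funext j
    simp only [Pi.add_apply, Pi.neg_apply]
    omega

omit [IsDomain R] in
/-- some monomial in the support does not vanish at `ε` -/
lemma exists_mono {D : Cox R ι C r} (ε : R →ₐ[ℂ] ℂ) (g : Fin r → ℤ) (h : R) (hh : h ∈ D.gr g)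
    (hε : ε h ≠ 0) : ∃ n : ι → ℕ, D.wt n = g ∧ ε (D.mono n) ≠ 0 := by
  by_contra hcon
  push Not at hcon
  apply hε
  have h1 : D.gr g ≤ LinearMap.ker ε.toLinearMap := by
    rw [Cox.gr, Submodule.span_le]
    rintro _ ⟨n, hn, rfl⟩
    exact hcon n hn
  exact h1 hh

end CONE

theorem cone (h1 : S_HPRI) (h2 : S_PD2) (h3 : S_PD3) (_ : S_PRE1) (h5 : S_PRE2)
    (h6 : S_CHEL) : S_CONE := by
  intro R ι C r _ _ _ _ _ _ _ D hD M K c ε ho E hE j
  have heps := ho.one
  set ev := CONE.ev D c ε heps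
  obtain ⟨x0, hx0, hpr⟩ := (h5 R ι C r D M.toPreModel c).1 (RingHom.ker ev)
    (RingHom.ker_isPrime ev)
  obtain ⟨n, E', U, hn, hlin, hE', -, hxU, hU⟩ := hE x0
  have hzero := (hU x0).1 hxU
  obtain ⟨h, hh, hh0, hmul⟩ := K.eff E' hE'
  have hcls : K.cls E' = n • K.cls E := by
    rw [← (K.ker _ _).1 hlin, map_nsmul]
  -- `h` does not vanish at the origin
  have hεh : ε h ≠ 0 := by
    intro h0
    obtain ⟨s, hs, hsp⟩ := h1 R ι C r D hD _ h hh hh0
    obtain ⟨u, hu⟩ := hsp
    have h4 : ε s.prod = 0 := by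
      have h5 := congrArg ε hu
      rw [map_mul, h0] at h5
      exact (mul_eq_zero.1 h5).resolve_right ((u.isUnit.map ε).ne_zero)
    rw [map_multiset_prod, Multiset.prod_eq_zero_iff, Multiset.mem_map] at h4
    obtain ⟨π, hπs, hπ0⟩ := h4
    obtain ⟨hπ, g, hg⟩ := hs π hπs
    obtain ⟨p, hp⟩ := h2 R ι C r D hD M π g hπ hg
    have hndvd : ∀ j ∈ D.u c, ¬ π ∣ D.X j := by
      rintro j hj ⟨b, hb⟩
      have := congrArg ε hb
      rw [ho.one j hj, map_mul, hπ0, zero_mul] at this
      exact one_ne_zero this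
    have hpc : p.1 ∈ M.U c := ((h3 R ι C r D hD M p p π π g g hp hp).2 c).2 hndvd
    have hle : M.pr c p.1 hpc ≤ M.pr c x0 hx0 := by
      rw [hpr]
      intro a ha
      obtain ⟨b, hb⟩ := (hp.2.2 c hpc a).1 ha
      have hq := (h6 R ι C r D hD c).1 g π hg
      have hab : a = b * ⟨_, hq⟩ := Subtype.ext hb
      rw [RingHom.mem_ker, hab, map_mul,
        CONE.ev_pi hD heps g π hπ0 ⟨_, hq⟩ rfl, mul_zero]
    have hspec : p.1 ⤳ x0 := ((h5 R ι C r D M.toPreModel c).2.1 p.1 x0 hpc hx0).2 hle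
    have h7 := hzero p hspec
    rw [hmul p π g hp] at h7
    have h8 : multiplicity π h = 0 := by exact_mod_cast h7
    rw [multiplicity_eq_zero] at h8
    exact h8 ((Multiset.dvd_prod hπs).trans (Dvd.intro _ hu))
  obtain ⟨k, hk, hεk⟩ := CONE.exists_mono ε _ h hh hεh
  -- `k` is supported in the units of the chart
  have hksupp : ∀ j, j ∉ D.u c → k j = 0 := by
    intro j hj
    by_contra hkj
    apply hεk
    rw [Cox.mono, map_prod]
    refine Finset.prod_eq_zero (Finset.mem_univ j) ?_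
    rw [map_pow, ho.zero j hj, zero_pow hkj]
  have hσ : D.σ c (D.wt k) = fun j => (k j : ℤ) := by
    rw [Cox.wt, map_sum]
    funext i
    rw [Finset.sum_apply]
    rw [Finset.sum_eq_single i]
    · rw [map_zsmul, Pi.smul_apply]
      by_cases hi : i ∈ D.u c
      · rw [ho.uni i hi, if_pos rfl]
        simp
      · rw [hksupp i hi]
        simp
    · intro l _ hl
      rw [map_zsmul, Pi.smul_apply]
      by_cases hi : l ∈ D.u c
      · rw [ho.uni l hi, if_neg (Ne.symm hl)]
        simp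
      · rw [hksupp l hi]
        simp
    · simp
  rw [hk, hcls, map_nsmul] at hσ
  have h9 := congrFun hσ j
  rw [Pi.smul_apply, nsmul_eq_mul] at h9
  have h10 : (0 : ℤ) ≤ (n : ℤ) * D.σ c (K.cls E) j := by
    rw [h9]
    positivity
  exact nonneg_of_mul_nonneg_right h10 (by exact_mod_cast hn)

end FCB
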