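import Pool.Agent.H30.FCB.StE
import Pool.Agent.H30.FCB.Basic

/-! Module FIB3 of project FCB: fibres of the unimodular chart rings have dimension one. -/

open MvPolynomial AlgebraicGeometry CategoryTheory

namespace FCB

namespace FIB3

lemma dim_one {k T Ω : Type} [Field k] [CommRing T] [Field Ω] (ψ : Polynomial k →+* T)
    (hint : ψ.IsIntegral) (ω : T →+* Ω) (hinj : Function.Injective (ω.comp ψ)) :
    ringKrullDim T = 1 := by
  let := ψ.toAlgebra
  have hI : Algebra.IsIntegral (Polynomial k) T := ⟨hint⟩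
  have hk : ringKrullDim (Polynomial k) = 1 :=
    IsPrincipalIdealRing.ringKrullDim_eq_one _ (Polynomial.not_isField k)
  apply le_antisymm
  · rw [← hk]
    refine Order.krullDim_le_of_strictMono
      (fun P : PrimeSpectrum T => PrimeSpectrum.comap ψ P) ?_
    intro P Q hPQ
    exact Ideal.IsIntegral.comap_lt_comap (R := Polynomial k) (I := P.asIdeal) (J := Q.asIdeal) hPQ
  · have hP0 : (RingHom.ker ω).IsPrime := RingHom.ker_isPrime ω
    have hcomap : (RingHom.ker ω).comap (algebraMap (Polynomial k) T) = ⊥ := by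
      rw [eq_bot_iff]
      intro p hp
      have h1 : (ω.comp ψ) p = 0 := hp
      exact (map_eq_zero_iff _ hinj).1 h1
    have hX : (Ideal.span {(Polynomial.X : Polynomial k)}).IsPrime := by
      rw [Ideal.span_singleton_prime Polynomial.X_ne_zero]
      exact Polynomial.prime_X
    obtain ⟨Q, hQ1, hQ2, hQ3⟩ := Ideal.exists_ideal_over_prime_of_isIntegral
      (Ideal.span {(Polynomial.X : Polynomial k)}) (RingHom.ker ω) (by rw [hcomap]; exact bot_le)
    have hlt : (⟨RingHom.ker ω, hP0⟩ : PrimeSpectrum T) < ⟨Q, hQ2⟩ := by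
      refine lt_of_le_of_ne hQ1 fun h => ?_
      have h2 : RingHom.ker ω = Q := congrArg PrimeSpectrum.asIdeal h
      rw [← h2, hcomap] at hQ3
      have h3 : (Polynomial.X : Polynomial k) ∈ (⊥ : Ideal (Polynomial k)) := by
        rw [hQ3]
        exact Ideal.mem_span_singleton_self _
      exact Polynomial.X_ne_zero h3
    exact Order.one_le_krullDim_iff.2 ⟨_, _, hlt⟩

/-- The coordinate of `Y` below a coordinate of `X`. -/
def rho : CX → CY
  | .t i => .t i
  | .y j => .y j
  | .z => .z
  | _ => .o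

/-- Fibre coordinate. -/
def bet (c : ChX) : CX := if c.2.2 = 0 ∨ c.2.2 = 3 then .b else .a

/-- Exponents of Laurent monomials under `phi`. -/
def hat (n : CY → ℤ) : CX → ℤ
  | .t i => n (.t i)
  | .y j => n (.y j)
  | .z => n .z
  | .w => n .o
  | .v => n .o
  | _ => 0

lemma prod_CX {M : Type} [CommMonoid M] (f : CX → M) :
    ∏ j, f j = (∏ i, f (.t i)) * ((∏ j, f (.y j)) *
      (f .z * (f .w * (f .v * (f .a * (f .b * f .x)))))) :=
  sum_CX (M := Additive M) f

lemma prod_CY {M : Type} [CommMonoid M] (f : CY → M) :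
    ∏ j, f j = (∏ i, f (.t i)) * ((∏ j, f (.y j)) * (f .z * f .o)) :=
  sum_CY (M := Additive M) f

lemma Phi_monoZ [IsDomain RX] {Φ : FractionRing RY →+* FractionRing RX} (hΦ : IsPhi Φ)
    (n : CY → ℤ) : Φ (DY.monoZ n) = DX.monoZ (hat n) := by
  have ht : ∀ i, Φ (algebraMap RY (FractionRing RY) (DY.X (.t i))) =
      algebraMap RX (FractionRing RX) (DX.X (.t i)) := by
    intro i
    rw [hΦ]
    simp [phi, DY]
  have hy : ∀ i, Φ (algebraMap RY (FractionRing RY) (DY.X (.y i))) =
      algebraMap RX (FractionRing RX) (DX.X (.y i)) := by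
    intro i
    rw [hΦ]
    simp [phi, DY]
  have hz : Φ (algebraMap RY (FractionRing RY) (DY.X .z)) =
      algebraMap RX (FractionRing RX) (DX.X .z) := by
    rw [hΦ]
    simp [phi, DY]
  have ho : Φ (algebraMap RY (FractionRing RY) (DY.X .o)) =
      algebraMap RX (FractionRing RX) (DX.X .w) * algebraMap RX (FractionRing RX) (DX.X .v) := by
    rw [hΦ, ← map_mul]
    simp [phi, DY]
  rw [Cox.monoZ, Cox.monoZ, prod_CX, prod_CY]
  simp only [map_mul, map_prod, map_zpow₀, ht, hy, hz, ho, hat, zpow_zero, mul_one, mul_zpow]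

lemma Phi_co [IsDomain RX] (hD : DX.Laws) {Φ : FractionRing RY →+* FractionRing RX}
    (hΦ : IsPhi Φ) (c : ChX) (j : CX)
    (hj : hat (Pi.single (rho j) 1) + hat (-(sigmaY (tau c) (degY (rho j)))) =
      Pi.single j 1 - sigmaX c (degX j)) : Φ (DY.co (tau c) (rho j)) = DX.co c j := by
  have h1 : algebraMap RY (FractionRing RY) (DY.X (rho j)) = DY.monoZ (Pi.single (rho j) 1) := by
    rw [Cox.monoZ_single, zpow_one]
  have h2 : algebraMap RX (FractionRing RX) (DX.X j) = DX.monoZ (Pi.single j 1) := by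
    rw [Cox.monoZ_single, zpow_one]
  rw [Cox.co, Cox.co, map_mul, h1, h2, Phi_monoZ hΦ, Phi_monoZ hΦ, ← hD.monoZ_add,
    ← hD.monoZ_add]
  congr 1

lemma num (c : ChX) (hc : c.2.2 ≠ 4) (j : CX) (hj : j ∉ uX c) (hx : j ≠ .x) (hb : j ≠ bet c) :
    hat (Pi.single (rho j) 1) + hat (-(sigmaY (tau c) (degY (rho j)))) =
      Pi.single j 1 - sigmaX c (degX j) := by
  obtain ⟨i, l, k⟩ := c
  funext m
  fin_cases k
  · cases j with
    | t i' =>
      cases m <;> simp [hat, rho, sigmaY, sigmaX, tau, degX, degY, vecX, vecY, Pi.single_apply] <;>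
        (try ring_nf)
    | y j' =>
      fin_cases j' <;> cases m <;>
        simp [hat, rho, sigmaY, sigmaX, tau, degX, degY, vecX, vecY, Pi.single_apply] <;>
        (try ring_nf)
    | z =>
      cases m <;> simp [hat, rho, sigmaY, sigmaX, tau, degX, degY, vecX, vecY, Pi.single_apply] <;>
        (try ring_nf)
    | w => simp [uX] at hj
    | v => simp [uX] at hj
    | a => simp [uX] at hj
    | b => simp [bet] at hb
    | x => exact absurd rfl hx
  · cases j with
    | t i' =>
      cases m <;> simp [hat, rho, sigmaY, sigmaX, tau, degX, degY, vecX, vecY, Pi.single_apply] <;>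
        (try ring_nf)
    | y j' =>
      fin_cases j' <;> cases m <;>
        simp [hat, rho, sigmaY, sigmaX, tau, degX, degY, vecX, vecY, Pi.single_apply] <;>
        (try ring_nf)
    | z =>
      cases m <;> simp [hat, rho, sigmaY, sigmaX, tau, degX, degY, vecX, vecY, Pi.single_apply] <;>
        (try ring_nf)
    | w => simp [uX] at hj
    | v => simp [uX] at hj
    | a => simp [bet] at hb
    | b => simp [uX] at hj
    | x => exact absurd rfl hx
  · cases j with
    | t i' =>
      cases m <;> simp [hat, rho, sigmaY, sigmaX, tau, degX, degY, vecX, vecY, Pi.single_apply] <;>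
        (try ring_nf)
    | y j' =>
      fin_cases j' <;> cases m <;>
        simp [hat, rho, sigmaY, sigmaX, tau, degX, degY, vecX, vecY, Pi.single_apply] <;>
        (try ring_nf)
    | z => simp [uX] at hj
    | w =>
      cases m <;> simp [hat, rho, sigmaY, sigmaX, tau, degX, degY, vecX, vecY, Pi.single_apply] <;>
        (try ring_nf)
    | v => simp [uX] at hj
    | a => simp [bet] at hb
    | b => simp [uX] at hj
    | x => exact absurd rfl hx
  · cases j with
    | t i' =>
      cases m <;> simp [hat, rho, sigmaY, sigmaX, tau, degX, degY, vecX, vecY, Pi.single_apply] <;>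
        (try ring_nf)
    | y j' =>
      fin_cases j' <;> cases m <;>
        simp [hat, rho, sigmaY, sigmaX, tau, degX, degY, vecX, vecY, Pi.single_apply] <;>
        (try ring_nf)
    | z => simp [uX] at hj
    | w => simp [uX] at hj
    | v =>
      cases m <;> simp [hat, rho, sigmaY, sigmaX, tau, degX, degY, vecX, vecY, Pi.single_apply] <;>
        (try ring_nf)
    | a => simp [uX] at hj
    | b => simp [bet] at hb
    | x => exact absurd rfl hx
  · exact absurd rfl hc

lemma rho_notMem (c : ChX) (hc : c.2.2 ≠ 4) (j : CX) (hj : j ∉ uX c) (hx : j ≠ .x)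
    (hb : j ≠ bet c) : rho j ∉ uY (tau c) := by
  obtain ⟨i, l, k⟩ := c
  fin_cases k
  all_goals first
    | exact absurd rfl hc
    | (cases j <;> simp_all [uX, uY, tau, rho, bet])

lemma rho_surj (c : ChX) (hc : c.2.2 ≠ 4) (j' : CY) (hj : j' ∉ uY (tau c)) :
    ∃ j, j ∉ uX c ∧ j ≠ .x ∧ j ≠ bet c ∧ rho j = j' := by
  obtain ⟨i, l, k⟩ := c
  have hw : k = 2 → ∃ j, j ∉ uX (i, l, k) ∧ j ≠ .x ∧ j ≠ bet (i, l, k) ∧ rho j = .o := by
    rintro rfl
    exact ⟨.w, by simp [uX], by simp, by simp [bet], rfl⟩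
  have hv : k = 3 → ∃ j, j ∉ uX (i, l, k) ∧ j ≠ .x ∧ j ≠ bet (i, l, k) ∧ rho j = .o := by
    rintro rfl
    exact ⟨.v, by simp [uX], by simp, by simp [bet], rfl⟩
  cases j' with
  | t i' =>
    refine ⟨.t i', ?_, by simp, ?_, rfl⟩
    · fin_cases k <;> simp_all [uX, uY, tau]
    · unfold bet
      split_ifs <;> simp
  | y i' =>
    refine ⟨.y i', ?_, by simp, ?_, rfl⟩
    · fin_cases k <;> simp_all [uX, uY, tau]
    · unfold bet
      split_ifs <;> simp
  | z =>
    refine ⟨.z, ?_, by simp, ?_, rfl⟩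
    · fin_cases k <;> simp_all [uX, uY, tau]
    · unfold bet
      split_ifs <;> simp
  | o =>
    fin_cases k
    · simp [uY, tau] at hj
    · simp [uY, tau] at hj
    · exact hw rfl
    · exact hv rfl
    · exact absurd rfl hc

lemma x_notMem (c : ChX) (hc : c.2.2 ≠ 4) : CX.x ∉ uX c := by
  obtain ⟨i, l, k⟩ := c
  fin_cases k
  all_goals first
    | exact absurd rfl hc
    | simp [uX]

lemma bet_notMem (c : ChX) (hc : c.2.2 ≠ 4) : bet c ∉ uX c := by
  obtain ⟨i, l, k⟩ := c
  fin_cases k
  all_goals first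
    | exact absurd rfl hc
    | simp [uX, bet]

lemma bet_ne (c : ChX) : bet c ≠ .x := by
  unfold bet
  split_ifs <;> simp

/-- The part of the equation without `x`. -/
def gx {S : Type} [CommRing S] (v : CX → S) : S :=
  2 * v .z * v .a * v .b +
    (v (.y 0) * v (.y 1) - v (.y 2) ^ 2) * (v .w ^ 2 * v .a ^ 2 + v .v ^ 2 * v .b ^ 2)

lemma gx_congr {S : Type} [CommRing S] {v v' : CX → S} (h : ∀ j, j ≠ .x → v j = v' j) :
    gx v = gx v' := by
  simp only [gx]
  rw [h .z (by simp), h .a (by simp), h .b (by simp), h (.y 0) (by simp), h (.y 1) (by simp),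
    h (.y 2) (by simp), h .w (by simp), h .v (by simp)]

lemma eval_FX {S : Type} [CommRing S] (f : ℂ →+* S) (v : CX → S) :
    eval₂Hom f v FX = v .x ^ 2 + gx v := by
  have h2 : eval₂Hom f v (2 : MvPolynomial CX ℂ) = 2 := map_ofNat _ 2
  simp only [FX, GX, eP, gx, map_add, map_mul, map_pow, map_sub, h2, coe_eval₂Hom, eval₂_X]

/-- Extension by `1` on the units of the chart. -/
def ext1 {S : Type} [One S] (c : ChX) (v : {j : CX // j ∉ uX c} → S) (j : CX) : S :=
  if h : j ∈ uX c then 1 else v ⟨j, h⟩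

lemma eval_FXc {S : Type} [CommRing S] (f : ℂ →+* S) (c : ChX)
    (v : {j : CX // j ∉ uX c} → S) :
    eval₂Hom f v (FXc c) = ext1 c v .x ^ 2 + gx (ext1 c v) := by
  have h1 : (eval₂Hom f v).comp (aeval (fun j => if h : j ∈ uX c then
      (1 : MvPolynomial {j : CX // j ∉ uX c} ℂ) else X ⟨j, h⟩)).toRingHom =
      eval₂Hom f (ext1 c v) := by
    apply MvPolynomial.ringHom_ext
    · intro r
      simp
    · intro j
      by_cases h : j ∈ uX c <;> simp [h, ext1]
  rw [FXc]
  exact (DFunLike.congr_fun h1 FX).trans (eval_FX f _)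

open TensorProduct in
lemma key {A B k : Type} [CommRing A] [CommRing B] [Algebra ℂ A] [Algebra ℂ B] [Algebra A B]
    [IsScalarTower ℂ A B] [Field k] [Algebra A k] (c : ChX) (hc : c.2.2 ≠ 4)
    (gX : {j : CX // j ∉ uX c} → B) (gY : {j : CY // j ∉ uY (tau c)} → A)
    (hsB : Function.Surjective (aeval gX : MvPolynomial {j : CX // j ∉ uX c} ℂ →ₐ[ℂ] B))
    (hsA : Function.Surjective (aeval gY : MvPolynomial {j : CY // j ∉ uY (tau c)} ℂ →ₐ[ℂ] A))
    (hkB : ∀ p : MvPolynomial {j : CX // j ∉ uX c} ℂ, aeval gX p = 0 → p ∈ Ideal.span {FXc c})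
    (hF : aeval gX (FXc c) = 0)
    (hig : ∀ (j : {j : CX // j ∉ uX c}) (_ : j.1 ≠ .x) (_ : j.1 ≠ bet c)
      (h : rho j.1 ∉ uY (tau c)), algebraMap A B (gY ⟨rho j.1, h⟩) = gX j) :
    ringKrullDim (B ⊗[A] k) = 1 := by
  let Ω := AlgebraicClosure (RatFunc k)
  let κ : Polynomial k →+* Ω := (algebraMap (RatFunc k) Ω).comp (algebraMap (Polynomial k) _)
  have hκ : Function.Injective κ :=
    (algebraMap (RatFunc k) Ω).injective.comp (RatFunc.algebraMap_injective k)
  let α : k →+* Ω := κ.comp Polynomial.C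
  let θ' : CY → k := fun j => if h : j ∉ uY (tau c) then algebraMap A k (gY ⟨j, h⟩) else 0
  let v0 : CX → Ω → Ω := fun j s => if j = .x then s else if j = bet c then κ Polynomial.X
    else α (θ' (rho j))
  obtain ⟨s, hs⟩ := IsAlgClosed.exists_pow_nat_eq
    (-gx (ext1 c (fun j => v0 j.1 0))) (n := 2) (by norm_num)
  let v : {j : CX // j ∉ uX c} → Ω := fun j => v0 j.1 s
  have hv : ext1 c v .x ^ 2 + gx (ext1 c v) = 0 := by
    have h1 : ext1 c v .x = s := by
      rw [ext1, dif_neg (x_notMem c hc)]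
      simp [v, v0]
    have h2 : gx (ext1 c v) = gx (ext1 c (fun j => v0 j.1 0)) := by
      apply gx_congr
      intro j hj
      by_cases h : j ∈ uX c
      · rw [ext1, ext1, dif_pos h, dif_pos h]
      · rw [ext1, ext1, dif_neg h, dif_neg h]
        simp [v, v0, hj]
    rw [h1, h2, hs]
    ring
  let pΩ : MvPolynomial {j : CX // j ∉ uX c} ℂ →+* Ω :=
    eval₂Hom (α.comp ((algebraMap A k).comp (algebraMap ℂ A))) v
  let pB : MvPolynomial {j : CX // j ∉ uX c} ℂ →+* B := (aeval gX).toRingHom
  let pA : MvPolynomial {j : CY // j ∉ uY (tau c)} ℂ →+* A := (aeval gY).toRingHom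
  have hker : RingHom.ker pB ≤ RingHom.ker pΩ := by
    intro p hp
    obtain ⟨q, rfl⟩ := Ideal.mem_span_singleton'.1 (hkB p hp)
    rw [RingHom.mem_ker, map_mul]
    have h1 : pΩ (FXc c) = 0 := by
      rw [eval_FXc]
      exact hv
    rw [h1, mul_zero]
  let ωB : B →+* Ω := RingHom.liftOfSurjective pB hsB ⟨pΩ, hker⟩
  have hωB : ωB.comp pB = pΩ := RingHom.liftOfSurjective_comp pB hsB ⟨pΩ, hker⟩
  have hωB' : ∀ p, ωB (pB p) = pΩ p := fun p => DFunLike.congr_fun hωB p
  have hpBX : ∀ j, pB (X j) = gX j := fun j => aeval_X _ _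
  have hpAX : ∀ j, pA (X j) = gY j := fun j => aeval_X _ _
  have hpBC : ∀ z, pB (C z) = algebraMap ℂ B z := fun z => AlgHom.commutes (aeval gX) z
  have hpAC : ∀ z, pA (C z) = algebraMap ℂ A z := fun z => AlgHom.commutes (aeval gY) z
  have hρ : ∀ j : {j : CX // j ∉ uX c}, j.1 ≠ .x → j.1 ≠ bet c → ∃ a : A,
      gX j = algebraMap A B a ∧ θ' (rho j.1) = algebraMap A k a := by
    intro j hx hb
    have h1 := rho_notMem c hc j.1 j.2 hx hb
    refine ⟨gY ⟨rho j.1, h1⟩, (hig j hx hb h1).symm, ?_⟩
    simp only [θ']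
    rw [dif_pos h1]
  -- compatibility with `A`
  have hcomp : ωB.comp (algebraMap A B) = α.comp (algebraMap A k) := by
    have h1 : (ωB.comp (algebraMap A B)).comp pA = (α.comp (algebraMap A k)).comp pA := by
      apply MvPolynomial.ringHom_ext
      · intro z
        simp only [RingHom.comp_apply]
        rw [hpAC, ← IsScalarTower.algebraMap_apply ℂ A B, ← hpBC, hωB']
        simp [pΩ]
      · intro j
        obtain ⟨l, hl, hx, hb, hr⟩ := rho_surj c hc j.1 j.2
        have h2 : rho l ∉ uY (tau c) := by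
          rw [hr]
          exact j.2
        have h4 : gY j = gY ⟨rho l, h2⟩ := by
          congr 1
          exact Subtype.ext hr.symm
        simp only [RingHom.comp_apply]
        rw [hpAX, h4, hig ⟨l, hl⟩ hx hb h2, ← hpBX, hωB']
        have h5 : pΩ (X ⟨l, hl⟩) = v ⟨l, hl⟩ := eval₂_X _ _ _
        have h6 : v ⟨l, hl⟩ = α (θ' (rho l)) := by
          simp only [v, v0]
          rw [if_neg hx, if_neg hb]
        have h7 : θ' (rho l) = algebraMap A k (gY ⟨rho l, h2⟩) := by
          simp only [θ']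
          rw [dif_pos h2]
        rw [h5, h6, h7]
    exact (RingHom.cancel_right hsA).1 h1
  let := (α.comp (algebraMap A k)).toAlgebra
  let f : B →ₐ[A] Ω := { ωB with commutes' := fun a => DFunLike.congr_fun hcomp a }
  let g : k →ₐ[A] Ω := { α with commutes' := fun a => rfl }
  let ω : B ⊗[A] k →ₐ[A] Ω := Algebra.TensorProduct.productMap f g
  let iR : k →+* B ⊗[A] k := (Algebra.TensorProduct.includeRight : k →ₐ[A] B ⊗[A] k).toRingHom
  let iL : B →+* B ⊗[A] k := (Algebra.TensorProduct.includeLeftRingHom : B →+* B ⊗[A] k)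
  let ψ : Polynomial k →+* B ⊗[A] k :=
    Polynomial.eval₂RingHom iR (iL (gX ⟨bet c, bet_notMem c hc⟩))
  have hiLR : ∀ a : A, iL (algebraMap A B a) = iR (algebraMap A k a) := by
    intro a
    exact (Algebra.TensorProduct.algebraMap_apply' a)
  refine dim_one ψ ?_ ω.toRingHom ?_
  · let := ψ.toAlgebra
    have hψ : ∀ q, IsIntegral (Polynomial k) (ψ q) := fun q =>
      isIntegral_algebraMap (R := Polynomial k) (A := B ⊗[A] k) (x := q)
    have hir : ∀ z : k, IsIntegral (Polynomial k) (iR z) := by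
      intro z
      have h1 : ψ (Polynomial.C z) = iR z := by simp [ψ]
      rw [← h1]
      exact hψ _
    have hβ : IsIntegral (Polynomial k) (iL (gX ⟨bet c, bet_notMem c hc⟩)) := by
      have h1 : ψ Polynomial.X = iL (gX ⟨bet c, bet_notMem c hc⟩) := by simp [ψ]
      rw [← h1]
      exact hψ _
    have hgen : ∀ j : {j : CX // j ∉ uX c}, j.1 ≠ .x → IsIntegral (Polynomial k) (iL (gX j)) := by
      intro j hx
      by_cases hb : j.1 = bet c
      · have : j = ⟨bet c, bet_notMem c hc⟩ := Subtype.ext hb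
        rw [this]
        exact hβ
      · rw [← hig j hx hb (rho_notMem c hc j.1 j.2 hx hb), hiLR]
        exact hir _
    let vT : {j : CX // j ∉ uX c} → B ⊗[A] k := fun j => iL (gX j)
    have hrel : ext1 c vT .x ^ 2 + gx (ext1 c vT) = 0 := by
      rw [← eval_FXc (iL.comp (algebraMap ℂ B))]
      have h1 : eval₂Hom (iL.comp (algebraMap ℂ B)) vT = iL.comp pB := by
        apply MvPolynomial.ringHom_ext
        · intro z
          rw [RingHom.comp_apply, hpBC]
          simp
        · intro j
          rw [RingHom.comp_apply, hpBX]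
          simp [vT]
      rw [h1, RingHom.comp_apply]
      have h2 : pB (FXc c) = 0 := hF
      rw [h2, map_zero]
    have hone : IsIntegral (Polynomial k) (1 : B ⊗[A] k) := isIntegral_one
    have hvT : ∀ j, j ≠ .x → IsIntegral (Polynomial k) (ext1 c vT j) := by
      intro j hj
      unfold ext1
      split_ifs with h
      · exact hone
      · exact hgen ⟨j, h⟩ hj
    have hx : IsIntegral (Polynomial k) (iL (gX ⟨.x, x_notMem c hc⟩)) := by
      refine IsIntegral.of_pow (n := 2) (by norm_num) ?_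
      have h1 : iL (gX ⟨.x, x_notMem c hc⟩) = ext1 c vT .x := by
        rw [ext1, dif_neg (x_notMem c hc)]
      rw [h1, eq_neg_of_add_eq_zero_left hrel]
      refine IsIntegral.neg ?_
      have h2 : IsIntegral (Polynomial k) (2 : B ⊗[A] k) := by
        have := hone.add hone
        rwa [one_add_one_eq_two] at this
      unfold gx
      exact (((h2.mul (hvT .z (by simp))).mul (hvT .a (by simp))).mul (hvT .b (by simp))).add
        ((((hvT (.y 0) (by simp)).mul (hvT (.y 1) (by simp))).sub
          ((hvT (.y 2) (by simp)).pow 2)).mul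
          ((((hvT .w (by simp)).pow 2).mul ((hvT .a (by simp)).pow 2)).add
            (((hvT .v (by simp)).pow 2).mul ((hvT .b (by simp)).pow 2))))
    have hall : ∀ p, IsIntegral (Polynomial k) (iL (pB p)) := by
      intro p
      induction p using MvPolynomial.induction_on with
      | C z =>
        rw [hpBC, IsScalarTower.algebraMap_apply ℂ A B, hiLR]
        exact hir _
      | add p q hp hq =>
        rw [map_add, map_add]
        exact hp.add hq
      | mul_X p j hp =>
        rw [map_mul, map_mul, hpBX]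
        refine hp.mul ?_
        by_cases h : j.1 = .x
        · have : j = ⟨.x, x_notMem c hc⟩ := Subtype.ext h
          rw [this]
          exact hx
        · exact hgen j h
    intro t
    change IsIntegral (Polynomial k) t
    induction t using TensorProduct.induction_on with
    | zero => exact isIntegral_zero
    | tmul b z =>
      obtain ⟨p, hp⟩ := hsB b
      have h1 : b ⊗ₜ[A] z = iL (pB p) * iR z := by
        have h2 : pB p = b := hp
        rw [h2]
        simp [iL, iR]
      rw [h1]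
      exact (hall p).mul (hir z)
    | add s t hs ht => exact hs.add ht
  · have : ω.toRingHom.comp ψ = κ := by
      apply Polynomial.ringHom_ext
      · intro a
        simp [ψ, ω, iR, g, α]
      · have h1 : ωB (gX ⟨bet c, bet_notMem c hc⟩) = κ Polynomial.X := by
          rw [← hpBX, hωB']
          have h5 : pΩ (X ⟨bet c, bet_notMem c hc⟩) = v ⟨bet c, bet_notMem c hc⟩ := eval₂_X _ _ _
          rw [h5]
          simp only [v, v0]
          rw [if_neg (bet_ne c), if_pos trivial]
        simpa [ψ, ω, iL, f] using h1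
    rw [this]
    exact hκ

end FIB3

open FIB3 TensorProduct in
theorem fib3 (hP : S_PRSX) (hQ : S_PRSY) : S_FIB3 := by
  intro _ hD c i hc ⟨Φ, hΦ, hi⟩ k _ θ
  letI := i.toAlgebra
  letI := θ.toAlgebra
  obtain ⟨φ, hφX, hφr, hφk⟩ := hP c hc
  obtain ⟨φ', hφ'X, hφ'r, -⟩ := hQ (tau c)
  have hgX : ∀ j : {j : CX // j ∉ uX c}, DX.co c j.1 ∈ DX.chart c := by
    intro j
    rw [← hφr, ← hφX j]
    exact ⟨_, rfl⟩
  have hgY : ∀ j : {j : CY // j ∉ uY (tau c)}, DY.co (tau c) j.1 ∈ DY.chart (tau c) := by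
    intro j
    rw [← hφ'r, ← hφ'X j]
    exact ⟨_, rfl⟩
  let gX : {j : CX // j ∉ uX c} → DX.chart c := fun j => ⟨_, hgX j⟩
  let gY : {j : CY // j ∉ uY (tau c)} → DY.chart (tau c) := fun j => ⟨_, hgY j⟩
  let pB : MvPolynomial {j : CX // j ∉ uX c} ℂ →ₐ[ℂ] DX.chart c := aeval gX
  let pA : MvPolynomial {j : CY // j ∉ uY (tau c)} ℂ →ₐ[ℂ] DY.chart (tau c) := aeval gY
  have hpB : ∀ p, ((pB p : DX.chart c) : FractionRing RX) = φ p := by
    intro p
    have : (DX.chart c).val.comp pB = φ := by
      apply MvPolynomial.algHom_ext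
      intro j
      rw [hφX j]
      simp [pB, gX]
    exact DFunLike.congr_fun this p
  have hpA : ∀ p, ((pA p : DY.chart (tau c)) : FractionRing RY) = φ' p := by
    intro p
    have : (DY.chart (tau c)).val.comp pA = φ' := by
      apply MvPolynomial.algHom_ext
      intro j
      rw [hφ'X j]
      simp [pA, gY]
    exact DFunLike.congr_fun this p
  have hsB : Function.Surjective pB := by
    intro b
    obtain ⟨p, hp⟩ : (b : FractionRing RX) ∈ φ.range := hφr.ge b.2
    exact ⟨p, Subtype.ext ((hpB p).trans hp)⟩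
  have hsA : Function.Surjective pA := by
    intro b
    obtain ⟨p, hp⟩ : (b : FractionRing RY) ∈ φ'.range := hφ'r.ge b.2
    exact ⟨p, Subtype.ext ((hpA p).trans hp)⟩
  have hkB : ∀ p, pB p = 0 → p ∈ Ideal.span {FXc c} := by
    intro p hp
    rw [← hφk]
    have h1 := hpB p
    rw [hp] at h1
    exact h1.symm
  have hF : pB (FXc c) = 0 := by
    apply Subtype.ext
    rw [hpB]
    have h1 : FXc c ∈ RingHom.ker φ.toRingHom := by
      rw [hφk]
      exact Ideal.mem_span_singleton_self _
    exact h1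
  -- `i` on generators
  have hiC : ∀ z : ℂ, i (algebraMap ℂ _ z) = algebraMap ℂ _ z := by
    intro z
    apply Subtype.ext
    rw [hi]
    have h1 := hΦ (C z)
    have h2 : phi (C z) = algebraMap ℂ RX z := by
      rw [phi, ← MvPolynomial.algebraMap_eq]
      exact AlgHom.commutes _ z
    rw [h2] at h1
    exact h1
  have hig : ∀ (j : {j : CX // j ∉ uX c}) (_ : j.1 ≠ .x) (_ : j.1 ≠ bet c)
      (h : rho j.1 ∉ uY (tau c)), i (gY ⟨rho j.1, h⟩) = gX j := by
    intro j hx hb h
    apply Subtype.ext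
    rw [hi]
    exact Phi_co hD hΦ c j.1 (num c hc j.1 j.2 hx hb)
  have : IsScalarTower ℂ (DY.chart (tau c)) (DX.chart c) :=
    IsScalarTower.of_algebraMap_eq fun z => (hiC z).symm
  exact key c hc gX gY hsB hsA hkB hF hig

end FCB
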