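import Pool.Agent.H30.FCB.StB

/-! Module SMOC of project FCB. -/

open AlgebraicGeometry CategoryTheory

namespace FCB

namespace SMOC

lemma res_secHom {X : Scheme.{0}} (s : X ⟶ Spec (.of ℂ)) (U V : X.Opens) (h : U ≤ V) (z : ℂ) :
    (X.presheaf.map (homOfLE h).op).hom (secHom s V z) = secHom s U z := by
  simp only [secHom, RingHom.comp_apply]
  rw [← RingHom.comp_apply, ← CommRingCat.hom_comp, ← Functor.map_comp]
  rfl

lemma germ_secHom {X : Scheme.{0}} [IsIntegral X] (s : X ⟶ Spec (.of ℂ)) (U : X.Opens)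
    [Nonempty U] (z : ℂ) : X.germToFunctionField U (secHom s U z) = ffHom s z := by
  rw [← res_secHom s U ⊤ le_top]
  exact X.presheaf.germ_res_apply (homOfLE le_top) _ _ _

end SMOC

theorem smoc : S_SMOC := by
  intro R ι C r _ _ _ _ D M hsm
  have hcov : ⨆ c, ((⟨M.U c, M.aff c⟩ : M.X.affineOpens) : TopologicalSpace.Opens M.X) = ⊤ := by
    rw [eq_top_iff]
    rintro x -
    obtain ⟨c, hc⟩ := M.cov x
    exact TopologicalSpace.Opens.mem_iSup.2 ⟨c, hc⟩
  refine HasRingHomProperty.of_iSup_eq_top (P := @Smooth)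
    (fun c => (⟨M.U c, M.aff c⟩ : M.X.affineOpens)) hcov fun c => ?_
  have hkey : (secHom M.str (M.U c)).Smooth := by
    have h1 : ((M.iso c).symm.toRingHom.comp (algebraMap ℂ (D.chart c))).Smooth := by
      have h0 := RingHom.Smooth.propertyIsLocal.respectsIso.1 (algebraMap ℂ (D.chart c))
        (M.iso c).symm (RingHom.smooth_algebraMap.2 (hsm c))
      exact h0
    convert h1 using 1
    ext z
    rw [RingHom.comp_apply]
    apply (M.iso c).injective
    have h2 : (M.iso c) ((M.iso c).symm.toRingHom (algebraMap ℂ (D.chart c) z)) =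
      algebraMap ℂ (D.chart c) z := (M.iso c).apply_symm_apply _
    rw [h2]
    apply Subtype.ext
    rw [M.iso_emb, SMOC.germ_secHom, M.emb_C]
    rfl
  have h3 : secHom M.str (M.U c) = (M.str.appLE ⊤ (M.U c) le_top).hom.comp
      (Scheme.ΓSpecIso (.of ℂ)).inv.hom := by
    rfl
  rw [h3] at hkey
  exact (RingHom.Smooth.propertyIsLocal.respectsIso.cancel_left_isIso
    (Scheme.ΓSpecIso (.of ℂ)).inv (M.str.appLE ⊤ (M.U c) le_top)).1 hkey

end FCB
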